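import Pool.Agent.H52.Van.Final

/-! A lower bound for the maximal order of vanishing at `1` of polynomials with coefficients in
`{-1, 0, 1}`. -/

namespace Pool.Agent.Results.MP_72eb9b_nt.LogLogLowerBound

open Polynomial

/-- The polynomials of degree at most `n` with all coefficients in `{-1, 0, 1}`. -/
def Restricted (n : ℕ) : Set ℤ[X] :=
  {p | p.natDegree ≤ n ∧ ∀ j, p.coeff j = -1 ∨ p.coeff j = 0 ∨ p.coeff j = 1}

/-- The largest `k` such that `(x - 1) ^ k` divides some nonzero polynomial of degree at most `n`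
with all coefficients in `{-1, 0, 1}`. -/
noncomputable def M (n : ℕ) : ℕ :=
  sSup {k : ℕ | ∃ p ∈ Restricted n, p ≠ 0 ∧ (X - 1) ^ k ∣ p}

lemma le_M {n k : ℕ} {p : ℤ[X]} (hp : p ∈ Restricted n) (h0 : p ≠ 0) (hd : (X - 1) ^ k ∣ p) :
    k ≤ M n := by
  refine le_csSup ⟨n, ?_⟩ ⟨p, hp, h0, hd⟩
  rintro j ⟨q, hq, hq0, hqd⟩
  have h1 : ((X - 1 : ℤ[X]) ^ j).natDegree ≤ q.natDegree := natDegree_le_of_dvd hqd hq0
  have h2 : ((X - 1 : ℤ[X]) ^ j).natDegree = j := by
    have h3 : (X - 1 : ℤ[X]) = X - C 1 := by simp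
    rw [h3, natDegree_pow, natDegree_X_sub_C, mul_one]
  rw [h2] at h1
  exact h1.trans hq.1

/-- There is an absolute constant `c > 0` with `M(n) ≥ c √(n log log n / log n)` for all
`n ≥ 3`. -/
theorem result : ∃ c : ℝ, 0 < c ∧ ∀ n : ℕ, 3 ≤ n →
    c * √(n * Real.log (Real.log n) / Real.log n) ≤ M n := by
  obtain ⟨N₀, hN3, hlarge⟩ := Pool.Agent.H52.Van.large
  have hN₀ : (0 : ℝ) ≤ N₀ := Nat.cast_nonneg _
  refine ⟨1 / (80 * (N₀ + 1)), by positivity, fun n hn => ?_⟩
  set R := √(n * Real.log (Real.log n) / Real.log n) with hR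
  have hR0 : 0 ≤ R := Real.sqrt_nonneg _
  rcases lt_or_ge n N₀ with hlt | hge
  · -- small `n`: use `X - 1`
    have h1 : 1 ≤ M n := by
      refine le_M (p := X - 1) ⟨?_, ?_⟩ ?_ ?_
      · have h3 : (X - 1 : ℤ[X]) = X - C 1 := by simp
        rw [h3, natDegree_X_sub_C]
        omega
      · intro j
        rw [coeff_sub, coeff_X, coeff_one]
        rcases Nat.eq_zero_or_pos j with rfl | hj
        · simp
        · rcases Nat.eq_or_lt_of_le (Nat.succ_le_of_lt hj) with h | h
          · right; right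
            rw [← h]; norm_num
          · right; left
            have h5 : 1 ≠ j := by omega
            have h6 : j ≠ 0 := by omega
            simp [h5, h6]
      · have h3 : (X - 1 : ℤ[X]) = X - C 1 := by simp
        rw [h3]
        exact X_sub_C_ne_zero 1
      · rw [pow_one]
    have hn3 : (3 : ℝ) ≤ n := by exact_mod_cast hn
    have hlogn : 0 < Real.log n := Real.log_pos (by linarith)
    have hR1 : R ≤ n := by
      rw [hR, Real.sqrt_le_left (by linarith), div_le_iff₀ hlogn]
      have h4 : Real.log (Real.log n) ≤ Real.log n := by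
        have := Real.log_le_sub_one_of_pos hlogn
        linarith
      have h5 : (n : ℝ) * Real.log (Real.log n) ≤ n * Real.log n :=
        mul_le_mul_of_nonneg_left h4 (by linarith)
      have h6 : (n : ℝ) * Real.log n ≤ (n : ℝ) ^ 2 * Real.log n := by
        apply mul_le_mul_of_nonneg_right _ hlogn.le
        nlinarith
      linarith
    have h7 : (n : ℝ) ≤ N₀ := by exact_mod_cast hlt.le
    have h8 : 1 / (80 * ((N₀ : ℝ) + 1)) * R ≤ 1 := by
      rw [one_div, inv_mul_le_iff₀ (by positivity)]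
      linarith
    have h9 : (1 : ℝ) ≤ M n := by exact_mod_cast h1
    linarith
  · obtain ⟨k, hk, f, hf0, hfd, hfc, hfv⟩ := hlarge n hge
    have h1 : k ≤ M n := by
      refine le_M (p := f) ⟨hfd.le, fun j => ?_⟩ hf0 hfv
      have := abs_le.1 (hfc j)
      omega
    have h2 : (k : ℝ) ≤ M n := by exact_mod_cast h1
    have h3 : 1 / (80 * ((N₀ : ℝ) + 1)) * R ≤ 1 / 80 * R := by
      apply mul_le_mul_of_nonneg_right _ hR0
      apply one_div_le_one_div_of_le (by norm_num)
      linarith
    linarith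

end Pool.Agent.Results.MP_72eb9b_nt.LogLogLowerBound
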